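import Pool.Agent.H.MP_3eaa21_lc.A

set_option autoImplicit false

/-! True stages of level two. -/

namespace Pool.Agent.H.MP_b8791a_lc

open Pool.Agent.Lib.helper21.PR Pool.Agent.H.MP_fa5791_lc Pool.Agent.H.MP_fa2eca_lc Filter Set Encodable Denumerable
open Nat.Partrec Nat.Partrec.Code Pool.Agent.Lib.helper21 Pool.Agent.H.MP_3eaa21_lc

attribute [local irreducible] Primrec Computable

theorem last {S : ℕ → Prop} {c : ℕ → ℕ} (h : ∀ n, ∃ s ≥ n, S s) (k : ∀ n, ∀ᶠ s in atTop, S s → n < c s) (n : ℕ) :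
    ∃ t ≥ n, S t ∧ ∀ v > t, S v → c t < c v := by
  classical
  have ex : ∃ m, ∃ s ≥ n, S s ∧ c s = m := (h n).elim fun s a => ⟨_, s, a.1, a.2, rfl⟩
  obtain ⟨M, a⟩ := eventually_atTop.1 (k (Nat.find ex))
  have b : BddAbove {s | s ≥ n ∧ S s ∧ c s = Nat.find ex} := ⟨M, fun s d => not_lt.1 fun e => (a s e.le d.2.1).ne' d.2.2⟩
  obtain ⟨d, e, f⟩ := Nat.sSup_mem (Nat.find_spec ex) b
  exact ⟨_, d, e, fun v g l => (f.trans_le (Nat.find_min' ex ⟨v, d.trans g.le, l, rfl⟩)).lt_of_ne fun m =>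
    g.not_ge (le_csSup b ⟨d.trans g.le, l, m ▸ f⟩)⟩

theorem stages : ∃ (I : ℕ → ℕ → Bool) (T : ℕ → Prop), CI O (fun z : ℕ × ℕ => I z.1 z.2) ∧
    (∀ t s u, T s → t ≤ s → s ≤ u → I t u → T t) ∧ (∀ t u, T u → T t → t ≤ u → I t u) ∧ (∀ n, ∃ t ≥ n, T t) ∧
      ∀ Y H, CI Y H → (∀ n, ∃ r, T r ∧ n < r ∧ r ≤ H n) → CI Y (J (J O)) := by
  classical
  obtain ⟨N, n1, n2, n3, n4⟩ := re_bool (r_pw (ri_re (J_ri O))).re
  obtain ⟨a, a1, a2⟩ := RI.choice (Y := O) (R := fun s w => w ≤ s ∧ (∀ k < w, ¬ N k (s + 1) ≠ N k s) ∧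
    (w = s ∨ N w (s + 1) ≠ N w s)) (by fun_prop) fun s => bmin _ _
  have a5 : ∀ n t, (∀ s > t, n < a s) → N n (t + 1) = J O n := fun n t h => by
    refine Bool.eq_iff_iff.2 ⟨n2 _ _, fun k => ?_⟩
    obtain ⟨u, k⟩ := n4 n k
    have : ∀ s, N n (t + 1 + s) = N n (t + 1) := fun s => by
      induction s with
      | zero => rfl
      | succ s ih => rw [← add_assoc, not_not.1 ((a2 _).2.1 _ (h _ (by omega))), ih]
    exact this u ▸ n3 _ _ _ (by omega) k
  have a6 : ∀ n, ∀ᶠ s in atTop, n < a s := fun n => ((eventually_gt_atTop n).and ((eventually_all_finite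
    (finite_le_nat n)).2 fun m _ => show ∀ᶠ s in atTop, N m (s + 1) = N m s from by
      by_cases e : ∃ t, N m t
      · exact e.elim fun t e => (eventually_ge_atTop t).mono fun s h => by
          rw [n3 _ _ _ h e, n3 _ _ _ (h.trans s.le_succ) e]
      · exact .of_forall fun s => by simp [Bool.eq_false_iff.2 (not_exists.1 e _)])).mono fun s h =>
    not_le.1 fun k => (a2 s).2.2.elim (by omega) fun l => l (h.2 _ k)
  obtain ⟨E, e1, e2⟩ : ∃ E : ℕ → ℕ → List Bool → Bool, Primrec (fun z : ℕ × ℕ × List Bool => E z.1 z.2.1 z.2.2) ∧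
    ∀ t e σ, E t e σ = (evaln t (ofNat Code e.unpair.1) (encode (e.unpair.2, σ))).isSome :=
      ⟨_, by fun_prop, fun _ _ _ => rfl⟩
  have e3 : ∀ {t u e σ}, t ≤ u → E t e σ → E u e σ := fun h k => by
    rw [e2, Option.isSome_iff_exists] at *
    exact k.imp fun _ => evaln_mono h
  have e4 : ∀ e, J (J O) e ↔ ∃ n t, E t e (pre (J O) n) := fun e => J_iff.trans (exists_congr fun n => by
    simp only [e2, Option.isSome_iff_exists, Part.dom_iff_mem, evaln_complete]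
    exact exists_comm)
  obtain ⟨h, h1, h2⟩ : ∃ h : ℕ → ℕ → Bool, CI O (fun z : ℕ × ℕ => h z.1 z.2) ∧ ∀ t e, h t e ↔
    ∃ n < a t + 1, E t e (pre (N · (t + 1)) n) := ⟨fun _ _ => cd _, by fun_prop, fun _ _ => cd_true⟩
  obtain ⟨al, l1, l2⟩ : ∃ al : ℕ → ℕ → Bool, CI O (fun z : ℕ × ℕ => al z.1 z.2) ∧ ∀ t u, al t u ↔
    ∀ v < u + 1, t < v → a t < a v := ⟨fun _ _ => cd _, by fun_prop, fun _ _ => cd_true⟩
  obtain ⟨b, b1, b2⟩ := RI.choice (Y := O) (R := fun t w => w ≤ t ∧ (∀ e < w, ¬ (h t e ∧ ∀ v < t, al v t →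
    h v e = false)) ∧ (w = t ∨ h t w ∧ ∀ v < t, al v t → h v w = false)) (by fun_prop) fun s => bmin _ _
  obtain ⟨S, hS⟩ : ∃ S : ℕ → Prop, ∀ t, S t ↔ ∀ v > t, a t < a v := ⟨_, fun _ => .rfl⟩
  have s1 : ∀ {t}, S t → ∀ u, al t u := fun c u => (l2 _ _).2 fun v _ => (hS _).1 c v
  have s2 : ∀ {t s u}, S s → t ≤ s → s ≤ u → al t u → S t := fun {t s u} c d e f => (hS _).2 fun v g => by
    have := (l2 _ _).1 f v
    have := (l2 _ _).1 f s
    have := (hS _).1 c v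
    rcases d.eq_or_lt with rfl | d <;> omega
  have s3 : ∀ {t}, S t → ∀ n < a t + 1, pre (N · (t + 1)) n = pre (J O) n := fun c n d => ML.pre_congr fun i e =>
    a5 _ _ fun s f => by have := (hS _).1 c s f; omega
  have s4 : ∀ n, ∃ s ≥ n, S s := fun n => (last (S := fun _ => True) (fun n => ⟨n, le_rfl, trivial⟩)
    (fun n => (a6 n).mono fun _ c _ => c) n).imp fun t c => ⟨c.1, (hS t).2 fun v d => c.2.2 v d trivial⟩
  refine ⟨fun t u => cd (al t u ∧ ∀ v < u + 1, t < v → al v u → b t < b v), fun t => S t ∧ ∀ v > t, S v → b t < b v,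
    by fun_prop, fun t s u c d e f => ?_, fun t u c d e => cd_true.2 ⟨s1 d.1 _, fun v f g l =>
      d.2 v g (s2 c.1 (by omega) le_rfl l)⟩, last s4 fun n => ?_, fun Y H c d => ?_⟩
  · obtain ⟨f, g⟩ := cd_true.1 f
    refine ⟨s2 c.1 d e f, fun v l m => ?_⟩
    have := fun x y => g v x y (s1 m _)
    have := fun x y => g s x y (s1 c.1 _)
    have := fun x => c.2 v x m
    rcases d.eq_or_lt with rfl | d <;> omega
  · refine ((eventually_gt_atTop n).and ((eventually_all_finite (finite_le_nat n)).2 fun e _ => show ∀ᶠ t in atTop,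
      S t → ¬ (h t e ∧ ∀ v < t, al v t → h v e = false) from ?_)).mono fun t c d => not_le.1 fun f =>
        (b2 t).2.2.elim (by omega) (c.2 _ f d)
    by_cases f : ∃ v, S v ∧ h v e
    · exact f.elim fun v f => (eventually_gt_atTop v).mono fun t g _ l => by simp [l.2 v g (s1 f.1 _)] at f
    · exact .of_forall fun t g l => f ⟨t, g, l.1⟩
  obtain ⟨G, g1, g2⟩ : ∃ G : ℕ → ℕ, CI Y G ∧ ∀ k, ∃ r, (S r ∧ ∀ v > r, S v → b r < b v) ∧ r ≤ G k ∧ k ≤ a r ∧
      k ≤ b r := by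
    refine ⟨fun k => Nat.rec (H 0) (fun _ g => ∑ i ∈ Finset.range (g + 1), H i) k, by fun_prop, fun k => ?_⟩
    induction k with
    | zero => exact (d 0).imp fun r e => ⟨e.1, e.2.2, by omega⟩
    | succ k ih =>
      obtain ⟨r, e, f, g, l⟩ := ih
      exact (d r).imp fun s m => ⟨m.1, m.2.2.trans (Finset.single_le_sum (fun _ _ => Nat.zero_le _)
        (Finset.mem_range.2 (Nat.lt_succ_of_le f))), g.trans_lt ((hS r).1 e.1 s m.2.1), l.trans_lt (e.2 s m.2.1 m.1.1)⟩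
  have x : CI Y (J O) := CI.of_eq (f := fun e => N e (G (e + 1) + 1)) (by fun_prop) fun e => by
    obtain ⟨r, f, g, l, -⟩ := g2 (e + 1)
    exact a5 _ _ fun s m => by have := (hS r).1 f.1 s (by omega); omega
  generalize J O = X at *
  refine CI.of_eq (f := fun e => cd (∃ n < G (e + 1) + 1, E (G (e + 1)) e (pre X n))) (by fun_prop) fun e => ?_
  rw [Bool.eq_iff_iff, cd_true, e4]
  refine ⟨fun ⟨n, _, f⟩ => ⟨n, _, f⟩, fun ⟨n, t, f⟩ => ?_⟩
  obtain ⟨r, g, l, -, m⟩ := g2 (e + 1)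
  have ex : ∃ t, S t ∧ h t e := by
    obtain ⟨M, o⟩ := eventually_atTop.1 (a6 n)
    obtain ⟨s, p, q⟩ := s4 (M + t)
    have := o s (by omega)
    exact ⟨s, q, (h2 _ _).2 ⟨n, by omega, s3 q n (by omega) ▸ e3 (by omega) f⟩⟩
  obtain ⟨o, p⟩ := Nat.find_spec ex
  have q : Nat.find ex ≤ r := not_lt.1 fun q => (b2 _).2.1 e (by have := g.2 _ q o; omega) ⟨p, fun v w y =>
    Bool.eq_false_iff.2 fun z => Nat.find_min ex w ⟨s2 o w.le le_rfl y, z⟩⟩
  obtain ⟨k, v, w⟩ := (h2 _ _).1 p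
  have := (a2 (Nat.find ex)).1
  exact ⟨k, by omega, s3 o k v ▸ e3 (by omega) w⟩

theorem order {I : ℕ → ℕ → Bool} {T : ℕ → Prop} (i0 : CI O fun z : ℕ × ℕ => I z.1 z.2)
    (i1 : ∀ t s u, T s → t ≤ s → s ≤ u → I t u → T t) (i2 : ∀ t u, T u → T t → t ≤ u → I t u)
    (i3 : ∀ n, ∃ t ≥ n, T t) : ∃ (L : ℕ → ℕ → Bool) (Q : ℕ → ℕ → Prop), CI O (fun z : ℕ × ℕ => L z.1 z.2) ∧
      (∀ a, L a a = false) ∧ (∀ a c, a ≠ c → L a c = !L c a) ∧ (∀ a c d, L a c → L c d → L a d) ∧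
      (∀ x y, Q x y ↔ ∀ t, t ≤ x ∨ t ≤ y → T t → t < x ∧ t < y ∧ ∀ z < t + 1, L z x = L z y) ∧
      (∀ x y, Q x y → {w | L x w ∧ L w y}.Finite) ∧ ∀ x y, L x y → ¬ Q x y → {w | L x w ∧ L w y}.Infinite := by
  classical
  obtain ⟨lt, l1, l2⟩ : ∃ lt : List (List Bool) → ℕ → ℕ → Bool, Primrec (fun z : List (List Bool) × ℕ × ℕ =>
    lt z.1 z.2.1 z.2.2) ∧ ∀ C a c, lt C a c = if a < c then (C.getD c []).getD a false else
      if c < a then !(C.getD a []).getD c false else false := ⟨_, by fun_prop, fun _ _ _ => rfl⟩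
  obtain ⟨y, y1, y2⟩ : ∃ y : ℕ → ℕ, CI O y ∧ ∀ u, y u = ((Finset.range u).filter (I · u)).card.unpair.1 :=
    ⟨_, ci_comp (f := fun n : ℕ => n.unpair.1) (by fun_prop) (by fun_prop), fun _ => rfl⟩
  obtain ⟨c, c1, c2⟩ := ci_cov (f := fun u l => (List.range u).map fun z => cd (∃ w < u, y u < u ∧ (w = y u ∨
    ∀ t < u, t ≤ w ∨ t ≤ y u → I t u → t < w ∧ t < y u ∧ ∀ z < t + 1, lt l z w = lt l z (y u)) ∧
      (z = w ∨ lt l z w))) (by fun_prop)
  obtain ⟨L, hL⟩ : ∃ L : ℕ → ℕ → Bool, ∀ a d, L a d = lt ((List.range (a + d + 1)).map c) a d := ⟨_, fun _ _ => rfl⟩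
  have e : ∀ u, ∀ a < u, ∀ d < u, lt ((List.range u).map c) a d = L a d := fun u a h d k => by
    simp [hL, l2, h, k, show a < a + d + 1 by omega, show d < a + d + 1 by omega]
  obtain ⟨R, hR⟩ : ∃ R : ℕ → ℕ → ℕ → Prop, ∀ u w x, R u w x ↔ ∀ t < u, t ≤ w ∨ t ≤ x → I t u → t < w ∧ t < x ∧
    ∀ z < t + 1, L z w = L z x := ⟨_, fun _ _ _ => .rfl⟩
  have x3 : ∀ u, ∀ z < u, L z u ↔ ∃ w < u, y u < u ∧ (w = y u ∨ R u w (y u)) ∧ (z = w ∨ L z w) := fun u z h => by
    rw [← e (u + 1) z (by omega) u (by omega), l2, if_pos h]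
    simp only [List.getD_eq_getElem?_getD, List.getElem?_map, List.getElem?_range u.lt_succ_self, Option.map_some,
      Option.getD_some]
    rw [c2]
    simp only [List.getElem?_map, List.getElem?_range h, Option.map_some, Option.getD_some, cd_true, hR]
    exact exists_congr fun w => and_congr_right fun k => and_congr_right fun l => and_congr (or_congr_right
      (forall₂_congr fun t m => forall₂_congr fun _ _ => and_congr_right fun _ => and_congr_right fun _ =>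
        forall₂_congr fun z o => by rw [e _ _ (by omega) _ k, e _ _ (by omega) _ l])) (by rw [e _ _ h _ k])
  have x4 : ∀ a, L a a = false := fun a => by simp [hL, l2]
  have x5 : ∀ a d, a ≠ d → L a d = !L d a := fun a d k => by
    rw [hL, hL, add_comm d, l2, l2]
    rcases k.lt_or_gt with m | m <;> simp [m, m.not_gt]
  have as : ∀ {a c}, L a c → ¬ L c a := fun {a c} h k => by
    by_cases e : a = c
    · simp [e, x4] at h
    · simp [x5 a c e, k] at h
  have tt : ∀ {a c}, a ≠ c → ¬ L a c → L c a := fun {a c} h k => by simpa [x5 a c h] using k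
  have tr : ∀ m, ∀ a < m, ∀ c < m, ∀ d < m, L a c → L c d → L a d := fun m => by
    induction m with
    | zero => simp
    | succ m i1 =>
      have D : ∀ y < m, ∀ z < m, L y z → L z m → L y m := fun y h z k e f => (x3 _ _ h).2 (((x3 _ _ k).1 f).imp
        fun w g => ⟨g.1, g.2.1, g.2.2.1, .inr (g.2.2.2.elim (· ▸ e) (i1 _ h _ k _ g.1 e))⟩)
      intro a h c k d l e f
      have := as e
      have := as f
      rcases Nat.lt_succ_iff_lt_or_eq.1 h with h | rfl <;> rcases Nat.lt_succ_iff_lt_or_eq.1 k with k | rfl <;>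
        rcases Nat.lt_succ_iff_lt_or_eq.1 l with l | rfl
      exacts [i1 a h c k d l e f, D a h c k e f, by_contra fun g => as f (D d l a h (tt (by rintro rfl; tauto) g) e),
        by simp [x4] at f, tt l.ne fun g => as e (D c k d l f g), (as e f).elim, f, e]
  replace tr := fun a c d => tr (a + c + d + 1) a (by omega) c (by omega) d (by omega)
  obtain ⟨Q, hQ⟩ : ∃ Q : ℕ → ℕ → Prop, ∀ x y, Q x y ↔ ∀ t, t ≤ x ∨ t ≤ y → T t → t < x ∧ t < y ∧
    ∀ z < t + 1, L z x = L z y := ⟨_, fun _ _ => .rfl⟩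
  have key : ∀ x z r, Q x z → T r → x < r → (∀ t < r, T t → t ≤ x) → (∀ w < r, L x w → L w z → Q w z) ∧
      ∀ u, r ≤ u → L x u → ¬ L u z := fun x z r h k l m => by
    have zr : z < r := not_le.1 fun o => ((hQ _ _).1 h r (.inr o) k).1.not_gt l
    have a : ∀ w < r, L x w → L w z → Q w z := fun w o f g => (hQ _ _).2 fun t p q => by
      obtain ⟨b1, b2, b3⟩ := (hQ _ _).1 h t (.inl (m t (by omega) q)) q
      exact ⟨not_le.1 fun s => as f (b3 w (by omega) ▸ g), b2, fun v s => Bool.eq_iff_iff.2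
        ⟨(tr _ _ _ · g), fun o => tr _ _ _ (b3 v s ▸ o) f⟩⟩
    refine ⟨a, fun u => ?_⟩
    induction u using Nat.strong_induction_on with
    | _ u ih =>
      intro o f g
      obtain ⟨w, b1, b2, b3, b4⟩ := (x3 u x (by omega)).1 f
      refine as g ((x3 u z (by omega)).2 ?_)
      by_cases s : z = w ∨ L z w
      · exact ⟨w, b1, b2, b3, s⟩
      have s := tt (not_or.1 s).1 (not_or.1 s).2
      have v : Q w z ∧ w < r := b4.elim (· ▸ ⟨h, l⟩) fun v => by
        have := not_le.1 fun p => ih w b1 p v s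
        exact ⟨a w this v s, this⟩
      have j : ∀ t, t ≤ w ∨ t ≤ z → I t u → _ := fun t p q => (hQ _ _).1 v.1 t p (i1 t r u k (by omega) o q)
      refine ⟨z, by omega, b2, .inr ((hR _ _ _).2 fun t p q n => ?_), .inl rfl⟩
      rcases b3 with rfl | b3
      · exact ⟨(j t q.symm n).2.1, (j t q.symm n).1, fun v s => ((j t q.symm n).2.2 v s).symm⟩
      · have b5 := fun q => (hR _ _ _).1 b3 t p q n
        have : t ≤ w := q.elim (fun q => (j t (.inr q) n).1.le) fun q => (b5 (.inr q)).1.le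
        exact ⟨(j t (.inl this) n).2.1, (b5 (.inl this)).2.1, fun v s => ((j t (.inl this) n).2.2 v s).symm.trans
          ((b5 (.inl this)).2.2 v s)⟩
  have nx : ∀ x, ∃ r, T r ∧ x < r ∧ ∀ t < r, T t → t ≤ x := fun x => by
    have ex : ∃ r, T r ∧ x < r := (i3 (x + 1)).imp fun r h => ⟨h.2, h.1⟩
    exact ⟨_, (Nat.find_spec ex).1, (Nat.find_spec ex).2, fun t h k => not_lt.1 fun l => Nat.find_min ex h ⟨k, l⟩⟩
  refine ⟨L, Q, .of_eq (by fun_prop) fun _ => (hL _ _).symm, x4, x5, tr, hQ, fun x z h => ?_,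
    fun x z h k => infinite_of_forall_exists_gt fun n => ?_⟩
  · obtain ⟨r, a, b, d⟩ := nx x
    exact (finite_lt_nat r).subset fun w f => not_le.1 fun g => (key x z r h a b d).2 w g f.1 f.2
  have inf : {t | T t}.Infinite := infinite_of_forall_exists_gt fun n => (i3 (n + 1)).imp fun _ h => ⟨h.2, h.1⟩
  obtain ⟨u, a, b, d⟩ : ∃ u, T u ∧ n + x + z < u ∧ y u = x := by
    refine ⟨Nat.nth T (Nat.pair x (n + x + z + 1)), Nat.nth_mem_of_infinite inf _, (Nat.right_le_pair x _).trans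
      (Nat.nth_strictMono inf).le_apply, ?_⟩
    rw [y2, Finset.filter_congr fun t h => ⟨i1 t _ _ (Nat.nth_mem_of_infinite inf _) (Finset.mem_range.1 h).le le_rfl,
      fun k => i2 t _ (Nat.nth_mem_of_infinite inf _) k (Finset.mem_range.1 h).le⟩, ← Nat.count_eq_card_filter_range,
        Nat.count_nth_of_infinite inf, Nat.unpair_pair]
  refine ⟨u, ⟨(x3 u x (by omega)).2 ⟨x, by omega, by omega, .inl d.symm, .inl rfl⟩, tt (by omega) fun f => ?_⟩,
    by omega⟩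
  obtain ⟨w, b1, -, b3, b4⟩ := (x3 u z (by omega)).1 f
  rw [d] at b3
  have sy : ∀ {x z}, Q x z → Q z x := fun h => (hQ _ _).2 fun t p q => let ⟨a, b, c⟩ := (hQ _ _).1 h t p.symm q
    ⟨b, a, fun z d => (c z d).symm⟩
  rcases b3 with rfl | b3
  · exact b4.elim (fun e => by simp [e, x4] at h) (as h)
  have g : Q x w := sy ((hQ _ _).2 fun t p q => (hR _ _ _).1 b3 t (by omega) p (i2 t u a q (by omega)))
  rcases b4 with rfl | b4
  · exact k g
  obtain ⟨r, p, q, s⟩ := nx x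
  have j := key x w r g p q s
  have l := j.1 z (not_le.1 fun o => j.2 z o h b4) h b4
  refine k ((hQ _ _).2 fun t o v => ?_)
  have : t ≤ w := o.elim (fun o => ((hQ _ _).1 g t (.inl o) v).2.1.le) fun o => ((hQ _ _).1 l t (.inl o) v).2.1.le
  obtain ⟨p1, -, p3⟩ := (hQ _ _).1 g t (.inr this) v
  obtain ⟨q1, -, q3⟩ := (hQ _ _).1 l t (.inr this) v
  exact ⟨p1, q1, fun m n => (p3 m n).trans (q3 m n).symm⟩

end Pool.Agent.H.MP_b8791a_lc
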